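import Pool.Agent.P.MP_71e30e_nt.CMain

set_option autoImplicit false

namespace Pool.Agent.Results.MP_71e30e_nt.Composite

/-- The equation `1 + x + ... + x^(n-1) = y^q` has only finitely many solutions x, y, n, q
with `n` composite. -/
theorem result : {s : ℕ × ℕ × ℕ × ℕ | 2 ≤ s.1 ∧ 3 ≤ s.2.2.1 ∧ 2 ≤ s.2.2.2 ∧ ¬ s.2.2.1.Prime ∧
    ∑ i ∈ Finset.range s.2.2.1, s.1 ^ i = s.2.1 ^ s.2.2.2}.Finite :=
  Pool.Agent.P.MP_71e30e_nt.Comp.composite_finite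

end Pool.Agent.Results.MP_71e30e_nt.Composite
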