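import Pool.Agent.P.MP_71e30e_nt.GMain

set_option autoImplicit false

namespace Pool.Agent.Results.MP_71e30e_nt.GcdExponent

/-- For fixed `q`, all but finitely many solutions of `1 + x + ... + x^(n-1) = y^q` have
`gcd (x, y - 1) = x^(1/q + o(1))`. The triple is `(x, y, n)`. -/
theorem result (q : ℕ) (hq : 2 ≤ q) (ε : ℝ) (hε : 0 < ε) :
    {s : ℕ × ℕ × ℕ | 2 ≤ s.1 ∧ 2 ≤ s.2.2 ∧ ∑ i ∈ Finset.range s.2.2, s.1 ^ i = s.2.1 ^ q ∧
      ε < |Real.log (Nat.gcd s.1 (s.2.1 - 1)) / Real.log s.1 - 1 / q|}.Finite :=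
  Pool.Agent.P.MP_71e30e_nt.finite_unbalanced q hq ε hε

end Pool.Agent.Results.MP_71e30e_nt.GcdExponent
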