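import Pool.Agent.P.MP_71e30e_nt.CPow

set_option autoImplicit false

namespace Pool.Agent.Results.MP_71e30e_nt.PerfectPower

/-- For a prime `m`, the equation `1 + x + ... + x^(n-1) = y^q` has only finitely many solutions
x, y, n, q in which `x` is an `m`-th power and `n` is not a prime factor of `m (m - 1)`. -/
theorem result (m : ℕ) (hm : m.Prime) :
    {s : ℕ × ℕ × ℕ × ℕ | 2 ≤ s.1 ∧ 3 ≤ s.2.2.1 ∧ 2 ≤ s.2.2.2 ∧
      ((∃ z, s.1 = z ^ m) ∧ (s.2.2.1.Prime → ¬ s.2.2.1 ∣ m * (m - 1))) ∧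
      ∑ i ∈ Finset.range s.2.2.1, s.1 ^ i = s.2.1 ^ s.2.2.2}.Finite :=
  Pool.Agent.P.MP_71e30e_nt.Comp.power_finite m hm

end Pool.Agent.Results.MP_71e30e_nt.PerfectPower
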