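import Pool.Agent.P.MP_71e30e_nt.R9

set_option autoImplicit false

namespace Pool.Agent.Results.MP_71e30e_nt.SmallRank

open NumberField

/-- The equation `1 + x + ... + x^(n-1) = y^q` has only finitely many solutions x, y, n, q with
`n ≥ 5` prime such that, for some prime factor `r ≠ n` of `q`, the `r`-rank of the class group of
the `n`-th cyclotomic field exceeds the `r`-rank of the class group of its maximal real subfield
by at most `k`, where (k + 1)^200 ≤ n. -/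
theorem result : {s : ℕ × ℕ × ℕ × ℕ | 2 ≤ s.1 ∧ 5 ≤ s.2.2.1 ∧ s.2.2.1.Prime ∧ 2 ≤ s.2.2.2 ∧
    (∃ r k : ℕ, r.Prime ∧ r ∣ s.2.2.2 ∧ r ≠ s.2.2.1 ∧ (k + 1) ^ 200 ≤ s.2.2.1 ∧
      Nat.card {c : ClassGroup (𝓞 (CyclotomicField s.2.2.1 ℚ)) // c ^ r = 1} ≤ r ^ k * Nat.card
        {c : ClassGroup (𝓞 (maximalRealSubfield (CyclotomicField s.2.2.1 ℚ))) // c ^ r = 1}) ∧
    ∑ i ∈ Finset.range s.2.2.1, s.1 ^ i = s.2.1 ^ s.2.2.2}.Finite :=
  Pool.Agent.P.MP_71e30e_nt.Rk.rank_finite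

/-- The case `k = 0`: a prime factor of `q` dividing neither `n` nor the class number. -/
theorem classNumber_case : {s : ℕ × ℕ × ℕ × ℕ | 2 ≤ s.1 ∧ 5 ≤ s.2.2.1 ∧ s.2.2.1.Prime ∧
    2 ≤ s.2.2.2 ∧ (∃ r : ℕ, r.Prime ∧ r ∣ s.2.2.2 ∧
      ¬ r ∣ s.2.2.1 * classNumber (CyclotomicField s.2.2.1 ℚ)) ∧
    ∑ i ∈ Finset.range s.2.2.1, s.1 ^ i = s.2.1 ^ s.2.2.2}.Finite :=
  result.subset fun s ⟨h1, h2, h3, h4, ⟨r, hr, h5, h6⟩, h7⟩ => by
    refine ⟨h1, h2, h3, h4, ⟨r, 0, hr, h5, fun e => h6 (e ▸ dvd_mul_right _ _),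
      by simpa using h3.one_le, ?_⟩, h7⟩
    have e : ∀ c : ClassGroup (𝓞 (CyclotomicField s.2.2.1 ℚ)), c ^ r = 1 → c = 1 := fun c hc => by
      have := pow_gcd_eq_one.2 ⟨hc, show c ^ classNumber (CyclotomicField s.2.2.1 ℚ) = 1 from
        pow_card_eq_one⟩
      rwa [(hr.coprime_iff_not_dvd.2 fun k => h6 (k.mul_left _) : Nat.gcd _ _ = 1), pow_one] at this
    have : Subsingleton {c : ClassGroup (𝓞 (CyclotomicField s.2.2.1 ℚ)) // c ^ r = 1} :=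
      ⟨fun a b => Subtype.ext ((e _ a.2).trans (e _ b.2).symm)⟩
    have : Nonempty {c : ClassGroup (𝓞 (maximalRealSubfield (CyclotomicField s.2.2.1 ℚ))) //
      c ^ r = 1} := ⟨⟨1, one_pow r⟩⟩
    rw [pow_zero, one_mul]
    exact (Finite.card_le_one_iff_subsingleton.2 ‹_›).trans Nat.card_pos

end Pool.Agent.Results.MP_71e30e_nt.SmallRank
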